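import Mathlib
import Pool.Agent.Helper5.GKK.Basic

/-!
Almost principal minors `pp A K i j` (rows `K ∪ i`, columns `K ∪ j`, in matching order) and their
behaviour under the perturbations used in the characterisation of the limits of strict GKK matrices
with bounded ratios.
-/

namespace Pool.Agent.Helper85.SVG

open Matrix Finset Pool.Agent.Helper5.GKK
open scoped ComplexOrder

variable {n : ℕ}

/-- the almost principal minor with rows `K ∪ i` and columns `K ∪ j`, `K` in matching order -/
noncomputable def pp (A : Matrix (Fin n) (Fin n) ℂ) (K : Finset (Fin n)) (i j : Fin n) : ℂ :=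
  (A.submatrix (Sum.elim (Subtype.val : K → Fin n) (fun _ : Unit => i))
    (Sum.elim (Subtype.val : K → Fin n) (fun _ : Unit => j))).det

theorem pp_eq_sc (A : Matrix (Fin n) (Fin n) ℂ) (K : Finset (Fin n)) (hK : pm A K ≠ 0) (i j : Fin n) :
    pp A K i j = pm A K * sc A K i j := by
  rw [pp, det_sum A K hK]
  simp

/-- the bijection `insert k K ⊕ Unit ≃ K ⊕ Fin 2` -/
theorem exists_sigma {k : Fin n} {K : Finset (Fin n)} (hk : k ∉ K) :
    ∃ σ : (insert k K : Finset (Fin n)) ⊕ Unit ≃ K ⊕ Fin 2, ∀ i : Fin n,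
      Sum.elim (Subtype.val : K → Fin n) ![k, i] ∘ σ
        = Sum.elim (Subtype.val : ↥(insert k K) → Fin n) (fun _ : Unit => i) := by
  classical
  let f : (insert k K : Finset (Fin n)) ⊕ Unit → K ⊕ Fin 2 :=
    Sum.elim (fun x => if h : x.val ∈ K then Sum.inl ⟨x.val, h⟩ else Sum.inr 0) (fun _ => Sum.inr 1)
  have hf : Function.Bijective f := by
    constructor
    · rintro (⟨x, hx⟩ | x) (⟨y, hy⟩ | y) hxy
      · simp only [f, Sum.elim_inl] at hxy
        by_cases h1 : x ∈ K <;> by_cases h2 : y ∈ K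
        · simp only [h1, h2, dite_true, Sum.inl.injEq, Subtype.mk.injEq] at hxy
          subst hxy; rfl
        · simp [h1, h2] at hxy
        · simp [h1, h2] at hxy
        · have e1 : x = k := by
            rcases mem_insert.mp hx with h | h
            · exact h
            · exact absurd h h1
          have e2 : y = k := by
            rcases mem_insert.mp hy with h | h
            · exact h
            · exact absurd h h2
          subst e1; subst e2; rfl
      · simp only [f, Sum.elim_inl, Sum.elim_inr] at hxy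
        by_cases h1 : x ∈ K <;> simp [h1] at hxy
      · simp only [f, Sum.elim_inl, Sum.elim_inr] at hxy
        by_cases h1 : y ∈ K <;> simp [h1] at hxy
      · rfl
    · rintro (⟨x, hx⟩ | x)
      · refine ⟨Sum.inl ⟨x, mem_insert_of_mem hx⟩, ?_⟩
        simp [f, hx]
      · fin_cases x
        · refine ⟨Sum.inl ⟨k, mem_insert_self k K⟩, ?_⟩
          simp [f, hk]
        · exact ⟨Sum.inr (), rfl⟩
  refine ⟨Equiv.ofBijective f hf, fun i => ?_⟩
  funext x
  rcases x with ⟨x, hx⟩ | x
  · simp only [Function.comp_apply, Equiv.ofBijective_apply, f, Sum.elim_inl]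
    by_cases h1 : x ∈ K
    · simp [h1]
    · rcases mem_insert.mp hx with h | h
      · subst h; simp [h1]
      · exact absurd h h1
  · simp [f]

theorem pp_insert (A : Matrix (Fin n) (Fin n) ℂ) {K : Finset (Fin n)} (hK : pm A K ≠ 0) {k : Fin n}
    (hk : k ∉ K) (i j : Fin n) :
    pp A (insert k K) i j = pm A K * (sc A K k k * sc A K i j - sc A K k j * sc A K i k) := by
  obtain ⟨σ, hσ⟩ := exists_sigma hk
  rw [pp, ← hσ i, ← hσ j, ← submatrix_submatrix, det_submatrix_equiv_self, det_sum A K hK, det_fin_two]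
  simp

/-- two more vertices: rows `K, a, b, i`, columns `K, a, b, j` -/
theorem exists_sigma3 {a b : Fin n} {K : Finset (Fin n)} (ha : a ∉ K) (hb : b ∉ K) (hab : a ≠ b) :
    ∃ σ : (insert a (insert b K) : Finset (Fin n)) ⊕ Unit ≃ K ⊕ Fin 3, ∀ i : Fin n,
      Sum.elim (Subtype.val : K → Fin n) ![a, b, i] ∘ σ
        = Sum.elim (Subtype.val : ↥(insert a (insert b K)) → Fin n)
            (fun _ : Unit => i) := by
  classical
  let f : (insert a (insert b K) : Finset (Fin n)) ⊕ Unit → K ⊕ Fin 3 :=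
    Sum.elim (fun x => if h : x.val ∈ K then Sum.inl ⟨x.val, h⟩ else
      if x.val = a then Sum.inr 0 else Sum.inr 1) (fun _ => Sum.inr 2)
  have key : ∀ x ∈ (insert a (insert b K) : Finset (Fin n)), x ∉ K → x ≠ a → x = b := by
    intro x hx h1 h2
    rcases mem_insert.mp hx with h | h
    · exact absurd h h2
    · rcases mem_insert.mp h with h | h
      · exact h
      · exact absurd h h1
  have hf : Function.Bijective f := by
    constructor
    · rintro (⟨x, hx⟩ | x) (⟨y, hy⟩ | y) hxy
      · simp only [f, Sum.elim_inl] at hxy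
        by_cases h1 : x ∈ K <;> by_cases h2 : y ∈ K
        · simp only [h1, h2, dite_true, Sum.inl.injEq, Subtype.mk.injEq] at hxy
          subst hxy; rfl
        · simp only [h1, h2, dite_true, dite_false] at hxy
          split_ifs at hxy
        · simp only [h1, h2, dite_true, dite_false] at hxy
          split_ifs at hxy
        · simp only [h1, h2, dite_false] at hxy
          by_cases e1 : x = a <;> by_cases e2 : y = a
          · subst e1; subst e2; rfl
          · simp [e1, e2] at hxy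
          · simp [e1, e2] at hxy
          · have h3 := key x hx h1 e1
            have h4 := key y hy h2 e2
            subst h3; subst h4; rfl
      · simp only [f, Sum.elim_inl, Sum.elim_inr] at hxy
        by_cases h1 : x ∈ K
        · simp [h1] at hxy
        · by_cases e1 : x = a <;> simp [h1, e1, ha] at hxy
      · simp only [f, Sum.elim_inl, Sum.elim_inr] at hxy
        by_cases h1 : y ∈ K
        · simp [h1] at hxy
        · by_cases e1 : y = a <;> simp [h1, e1, ha] at hxy
      · rfl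
    · rintro (⟨x, hx⟩ | x)
      · refine ⟨Sum.inl ⟨x, mem_insert_of_mem (mem_insert_of_mem hx)⟩, ?_⟩
        simp [f, hx]
      · fin_cases x
        · refine ⟨Sum.inl ⟨a, mem_insert_self a _⟩, ?_⟩
          simp [f, ha]
        · refine ⟨Sum.inl ⟨b, mem_insert_of_mem (mem_insert_self b K)⟩, ?_⟩
          simp [f, hb, hab.symm]
        · exact ⟨Sum.inr (), rfl⟩
  refine ⟨Equiv.ofBijective f hf, fun i => ?_⟩
  funext x
  rcases x with ⟨x, hx⟩ | x
  · simp only [Function.comp_apply, Equiv.ofBijective_apply, f, Sum.elim_inl]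
    by_cases h1 : x ∈ K
    · simp [h1]
    · by_cases e1 : x = a
      · subst e1; simp [h1]
      · have := key x hx h1 e1
        subst this
        simp [h1, e1]
  · simp [f]

theorem pp_insert_insert (A : Matrix (Fin n) (Fin n) ℂ) {K : Finset (Fin n)} (hK : pm A K ≠ 0)
    {a b : Fin n} (ha : a ∉ K) (hb : b ∉ K) (hab : a ≠ b) (i j : Fin n) :
    pp A (insert a (insert b K)) i j = pm A K *
      (!![sc A K a a, sc A K a b, sc A K a j; sc A K b a, sc A K b b, sc A K b j;
        sc A K i a, sc A K i b, sc A K i j]).det := by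
  obtain ⟨σ, hσ⟩ := exists_sigma3 ha hb hab
  rw [pp, ← hσ i, ← hσ j, ← submatrix_submatrix, det_submatrix_equiv_self, det_sum A K hK]
  congr 2
  ext x y
  fin_cases x <;> fin_cases y <;> rfl

/-- the almost principal product through `pp` -/
theorem ap_eq_pp (A : Matrix (Fin n) (Fin n) ℂ) (hP : ∀ S, 0 < pm A S) {K : Finset (Fin n)} {i j : Fin n}
    (hi : i ∉ K) (hj : j ∉ K) (hij : i ≠ j) : ap A K i j = pp A K i j * pp A K j i := by
  have hK := (hP K).ne'
  rw [ap, pm_insert A K i hK hi, pm_insert A K j hK hj, pm_insert_insert A K i j hK hi hj hij,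
    pp_eq_sc A K hK, pp_eq_sc A K hK]
  ring

theorem sc_congr {A B : Matrix (Fin n) (Fin n) ℂ} {K : Finset (Fin n)} {a b : Fin n}
    (hKK : ∀ x ∈ K, ∀ y ∈ K, B x y = A x y) (haK : ∀ y ∈ K, B a y = A a y)
    (hKb : ∀ x ∈ K, B x b = A x b) : sc B K a b = sc A K a b + (B a b - A a b) := by
  have h1 : B.submatrix (Subtype.val : K → Fin n) (Subtype.val : K → Fin n)
      = A.submatrix (Subtype.val : K → Fin n) (Subtype.val : K → Fin n) := by
    ext x y
    exact hKK x x.2 y y.2
  have h2 : ∑ x : K, ∑ y : K, B a x * (B.submatrix (Subtype.val : K → Fin n) Subtype.val)⁻¹ x y * B y b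
      = ∑ x : K, ∑ y : K, A a x * (A.submatrix (Subtype.val : K → Fin n) Subtype.val)⁻¹ x y * A y b := by
    refine Finset.sum_congr rfl fun x _ => Finset.sum_congr rfl fun y _ => ?_
    rw [h1, haK x x.2, hKb y y.2]
  unfold sc
  rw [h2]
  ring

theorem pm_congr {A B : Matrix (Fin n) (Fin n) ℂ} {K : Finset (Fin n)}
    (hKK : ∀ x ∈ K, ∀ y ∈ K, B x y = A x y) : pm B K = pm A K := by
  have h1 : B.submatrix (Subtype.val : K → Fin n) (Subtype.val : K → Fin n)
      = A.submatrix (Subtype.val : K → Fin n) (Subtype.val : K → Fin n) := by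
    ext x y
    exact hKK x x.2 y y.2
  rw [pm, pm, h1]

/-- a minor relates to `pp` up to sign -/
theorem norm_minor_eq {A : Matrix (Fin n) (Fin n) ℂ} {K : Finset (Fin n)} {i j : Fin n}
    (hi : i ∉ K) (hj : j ∉ K) {k : ℕ} {α β : Fin k → Fin n}
    (hα : StrictMono α) (hβ : StrictMono β)
    (hαr : Set.range α = insert i (K : Set (Fin n))) (hβr : Set.range β = insert j (K : Set (Fin n))) :
    ‖minor A α β‖ = ‖pp A K i j‖ := by
  have inj : ∀ i : Fin n, i ∉ K → Function.Injective (Sum.elim (Subtype.val : K → Fin n) (fun _ : Unit => i)) := by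
    intro i hi
    rintro (x | x) (y | y) hxy
    · exact congrArg _ (Subtype.val_injective hxy)
    · exact absurd (by rw [← show x.val = i from hxy]; exact x.2) hi
    · exact absurd (by rw [show i = y.val from hxy]; exact y.2) hi
    · rfl
  have rng : ∀ i : Fin n, Set.range (Sum.elim (Subtype.val : K → Fin n) (fun _ : Unit => i))
      = insert i (K : Set (Fin n)) := by
    intro i
    ext x
    simp only [Set.mem_range, Sum.exists, Sum.elim_inl, Sum.elim_inr, exists_const,
      Set.mem_insert_iff, Finset.mem_coe, Subtype.exists, exists_prop, exists_eq_right]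
    constructor
    · rintro (h | h)
      · exact Or.inr h
      · exact Or.inl h.symm
    · rintro (h | h)
      · exact Or.inr h.symm
      · exact Or.inl h
  obtain ⟨σ, hσ⟩ := exists_equiv α _ hα.injective (inj i hi) (by rw [hαr, rng])
  obtain ⟨τ, hτ⟩ := exists_equiv β _ hβ.injective (inj j hj) (by rw [hβr, rng])
  rw [minor, hσ, hτ, ← submatrix_submatrix, det_submatrix_two, norm_mul, ← pp]
  have : ‖(((Equiv.Perm.sign (σ.symm.trans τ) : ℤˣ) : ℤ) : ℂ)‖ = 1 := by
    rcases Int.units_eq_one_or (Equiv.Perm.sign (σ.symm.trans τ)) with h | h <;> rw [h] <;> simp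
  rw [this, one_mul]

/-- block structure: almost principal minors between different blocks vanish -/
theorem pp_block {A : Matrix (Fin n) (Fin n) ℂ} (hP : ∀ S, pm A S ≠ 0) (X : Set (Fin n))
    (h1 : ∀ a b, a ∈ X → b ∉ X → A a b = 0) (h2 : ∀ a b, a ∈ X → b ∉ X → A b a = 0)
    (K : Finset (Fin n)) : ∀ i j, (i ∈ X ∧ j ∉ X) ∨ (i ∉ X ∧ j ∈ X) → i ∉ K → j ∉ K → sc A K i j = 0 := by
  induction K using Finset.induction_on with
  | empty =>
    intro i j hij _ _
    simp only [sc, Finset.univ_eq_empty, Finset.sum_empty, sub_zero]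
    rcases hij with h | h
    · exact h1 i j h.1 h.2
    · exact h2 j i h.2 h.1
  | insert k K hk ih =>
    intro i j hij hi hj
    have hK := hP K
    have hiK : i ∉ K := fun h => hi (mem_insert_of_mem h)
    have hjK : j ∉ K := fun h => hj (mem_insert_of_mem h)
    have h3 : pp A (insert k K) i j = 0 := by
      rw [pp_insert A hK hk, ih i j hij hiK hjK]
      by_cases hkX : k ∈ X
      · rcases hij with h | h
        · rw [ih k j (Or.inl ⟨hkX, h.2⟩) hk hjK]; ring
        · rw [ih i k (Or.inr ⟨h.1, hkX⟩) hiK hk]; ring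
      · rcases hij with h | h
        · rw [ih i k (Or.inl ⟨h.1, hkX⟩) hiK hk]; ring
        · rw [ih k j (Or.inr ⟨hkX, h.2⟩) hk hjK]; ring
    rw [pp_eq_sc A _ (hP _)] at h3
    exact (mul_eq_zero.mp h3).resolve_left (hP _)

/-! ### the rank one perturbation `A - η A e_k e_kᵀ A` -/

theorem det_rank_one (A : Matrix (Fin n) (Fin n) ℂ) (k : Fin n) (η : ℂ) {κ : Type*} [Fintype κ]
    [DecidableEq κ] (g h : κ → Fin n) :
    ((of fun a b => A a b - η * A a k * A k b : Matrix (Fin n) (Fin n) ℂ).submatrix g h).det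
      = (1 - η * A k k) * (A.submatrix g h).det
        + η * (A.submatrix (Sum.elim (fun _ : Unit => k) g) (Sum.elim (fun _ : Unit => k) h)).det := by
  set G := A.submatrix (Sum.elim (fun _ : Unit => k) g) (Sum.elim (fun _ : Unit => k) h) with hG
  set B : Matrix (Unit ⊕ κ) (Unit ⊕ κ) ℂ := fromBlocks 1 (of fun _ y => A k (h y))
    (of fun x _ => η * A (g x) k) (A.submatrix g h) with hB
  have h1 : B.det
      = ((of fun a b => A a b - η * A a k * A k b : Matrix (Fin n) (Fin n) ℂ).submatrix g h).det := by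
    rw [hB, det_fromBlocks_one₁₁]
    congr 1
    ext x y
    simp [mul_apply, mul_assoc]
  set C : Matrix (Unit ⊕ κ) (Unit ⊕ κ) ℂ := fromBlocks 1 (of fun _ y => A k (h y))
    0 (A.submatrix g h) with hC
  have h2 : C.det = (A.submatrix g h).det := by
    rw [hC, det_fromBlocks_one₁₁]
    simp
  have h3 : B = G.updateCol (Sum.inl ())
      ((1 - η * A k k) • (fun x => C x (Sum.inl ())) + η • (fun x => G x (Sum.inl ()))) := by
    ext x y
    rcases y with y | y
    · rw [show (Sum.inl y : Unit ⊕ κ) = Sum.inl () from rfl, updateCol_self]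
      rcases x with x | x
      · simp [hB, hC, hG]
      · simp [hB, hC, hG]
    · rw [updateCol_ne (by simp)]
      rcases x with x | x <;> simp [hB, hG]
  have h4 : C = G.updateCol (Sum.inl ()) (fun x => C x (Sum.inl ())) := by
    ext x y
    rcases y with y | y
    · rw [show (Sum.inl y : Unit ⊕ κ) = Sum.inl () from rfl, updateCol_self]
    · rw [updateCol_ne (by simp)]
      rcases x with x | x <;> simp [hC, hG]
  rw [← h1, h3, det_updateCol_add, det_updateCol_smul, det_updateCol_smul, updateCol_eq_self, ← h4, h2]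

/-- the perturbation `A - η A e_k e_kᵀ A` -/
noncomputable def rk (A : Matrix (Fin n) (Fin n) ℂ) (k : Fin n) (η : ℂ) : Matrix (Fin n) (Fin n) ℂ :=
  of fun a b => A a b - η * A a k * A k b

theorem det_eq_zero_of_mem (A : Matrix (Fin n) (Fin n) ℂ) (k : Fin n) {κ : Type*} [Fintype κ]
    [DecidableEq κ] (g h : κ → Fin n) (x : κ) (hx : g x = k) :
    (A.submatrix (Sum.elim (fun _ : Unit => k) g) (Sum.elim (fun _ : Unit => k) h)).det = 0 := by
  refine Matrix.det_zero_of_row_eq (i := Sum.inl ()) (j := Sum.inr x) (by simp) ?_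
  funext y
  simp [hx]

theorem det_eq_zero_of_mem' (A : Matrix (Fin n) (Fin n) ℂ) (k : Fin n) {κ : Type*} [Fintype κ]
    [DecidableEq κ] (g h : κ → Fin n) (x : κ) (hx : h x = k) :
    (A.submatrix (Sum.elim (fun _ : Unit => k) g) (Sum.elim (fun _ : Unit => k) h)).det = 0 := by
  refine Matrix.det_zero_of_column_eq (i := Sum.inl ()) (j := Sum.inr x) (by simp) ?_
  intro y
  simp [hx]

theorem pm_rk_mem (A : Matrix (Fin n) (Fin n) ℂ) {k : Fin n} (η : ℂ) {S : Finset (Fin n)} (hk : k ∈ S) :
    pm (rk A k η) S = (1 - η * A k k) * pm A S := by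
  rw [pm, rk, det_rank_one, det_eq_zero_of_mem A k _ _ ⟨k, hk⟩ rfl, mul_zero, add_zero, pm]

theorem pm_rk_notMem (A : Matrix (Fin n) (Fin n) ℂ) {k : Fin n} (η : ℂ) {S : Finset (Fin n)}
    (hk : k ∉ S) : pm (rk A k η) S = (1 - η * A k k) * pm A S + η * pm A (insert k S) := by
  rw [pm, rk, det_rank_one, pm]
  congr 2
  refine pm_eq_det A _ ?_ _ ?_
  · rintro (x | x) (y | y) hxy
    · rfl
    · exact absurd (by rw [show k = y.val from hxy]; exact y.2) hk
    · exact absurd (by rw [← show x.val = k from hxy]; exact x.2) hk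
    · exact congrArg _ (Subtype.val_injective hxy)
  · ext x
    simp only [Set.mem_range, Sum.exists, Sum.elim_inl, Sum.elim_inr, exists_const, Finset.coe_insert,
      Set.mem_insert_iff, Finset.mem_coe, Subtype.exists, exists_prop, exists_eq_right]
    constructor
    · rintro (h | h)
      · exact Or.inl h.symm
      · exact Or.inr h
    · rintro (h | h)
      · exact Or.inl h.symm
      · exact Or.inr h

theorem pp_rk_mem (A : Matrix (Fin n) (Fin n) ℂ) {k : Fin n} (η : ℂ) {K : Finset (Fin n)} {i j : Fin n}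
    (hk : k ∈ K ∨ k = i ∨ k = j) : pp (rk A k η) K i j = (1 - η * A k k) * pp A K i j := by
  rw [pp, rk, det_rank_one, pp]
  rcases hk with h | h | h
  · rw [det_eq_zero_of_mem A k _ _ (Sum.inl ⟨k, h⟩) rfl, mul_zero, add_zero]
  · rw [det_eq_zero_of_mem A k _ _ (Sum.inr ()) (by simp [h]), mul_zero, add_zero]
  · rw [det_eq_zero_of_mem' A k _ _ (Sum.inr ()) (by simp [h]), mul_zero, add_zero]

theorem pp_rk_notMem (A : Matrix (Fin n) (Fin n) ℂ) {k : Fin n} (η : ℂ) {K : Finset (Fin n)} {i j : Fin n}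
    (hk : k ∉ K) :
    pp (rk A k η) K i j = (1 - η * A k k) * pp A K i j + η * pp A (insert k K) i j := by
  rw [pp, rk, det_rank_one, pp]
  congr 2
  obtain ⟨σ, hσ⟩ := exists_sigma hk
  -- `Unit ⊕ (K ⊕ Unit) ≃ K ⊕ Fin 2`
  let τ : Unit ⊕ (K ⊕ Unit) ≃ K ⊕ Fin 2 :=
    { toFun := Sum.elim (fun _ => Sum.inr 0) (Sum.elim Sum.inl (fun _ => Sum.inr 1))
      invFun := Sum.elim (fun x => Sum.inr (Sum.inl x)) ![Sum.inl (), Sum.inr (Sum.inr ())]
      left_inv := by
        rintro (x | x | x) <;> rfl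
      right_inv := by
        rintro (x | x)
        · rfl
        · fin_cases x <;> rfl }
  have hτ : ∀ i : Fin n, Sum.elim (Subtype.val : K → Fin n) ![k, i] ∘ τ
      = Sum.elim (fun _ : Unit => k) (Sum.elim (Subtype.val : K → Fin n) (fun _ : Unit => i)) := by
    intro i
    funext x
    rcases x with x | x | x <;> rfl
  rw [pp, ← hσ i, ← hσ j, ← submatrix_submatrix, det_submatrix_equiv_self, ← hτ i, ← hτ j,
    ← submatrix_submatrix, det_submatrix_equiv_self]

/-! ### the diagonal perturbation -/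

/-- `A + ε E_kk` -/
noncomputable def dg (A : Matrix (Fin n) (Fin n) ℂ) (k : Fin n) (ε : ℂ) : Matrix (Fin n) (Fin n) ℂ :=
  of fun a b => A a b + if a = k ∧ b = k then ε else 0

theorem dg_apply (A : Matrix (Fin n) (Fin n) ℂ) (k : Fin n) (ε : ℂ) (a b : Fin n) :
    dg A k ε a b = A a b + if a = k ∧ b = k then ε else 0 := rfl

theorem pm_dg_notMem (A : Matrix (Fin n) (Fin n) ℂ) {k : Fin n} (ε : ℂ) {S : Finset (Fin n)} (hk : k ∉ S) :
    pm (dg A k ε) S = pm A S := by
  refine pm_congr fun x hx y _ => ?_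
  rw [dg_apply, if_neg, add_zero]
  rintro ⟨rfl, _⟩
  exact hk hx

theorem sc_dg (A : Matrix (Fin n) (Fin n) ℂ) {k : Fin n} (ε : ℂ) {S : Finset (Fin n)} (hk : k ∉ S)
    (a b : Fin n) : sc (dg A k ε) S a b = sc A S a b + if a = k ∧ b = k then ε else 0 := by
  rw [sc_congr (A := A) (B := dg A k ε), dg_apply]
  · ring
  · intro x hx y _
    rw [dg_apply, if_neg, add_zero]
    rintro ⟨rfl, _⟩
    exact hk hx
  · intro y hy
    rw [dg_apply, if_neg, add_zero]
    rintro ⟨_, rfl⟩
    exact hk hy
  · intro x hx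
    rw [dg_apply, if_neg, add_zero]
    rintro ⟨rfl, _⟩
    exact hk hx

theorem pm_dg_insert (A : Matrix (Fin n) (Fin n) ℂ) {k : Fin n} (ε : ℂ) {K : Finset (Fin n)} (hk : k ∉ K)
    (hK : pm A K ≠ 0) : pm (dg A k ε) (insert k K) = pm A (insert k K) + ε * pm A K := by
  rw [pm_insert _ K k (by rwa [pm_dg_notMem A ε hk]) hk, pm_insert A K k hK hk, pm_dg_notMem A ε hk,
    sc_dg A ε hk, if_pos ⟨rfl, rfl⟩]
  ring

theorem pp_dg_notMem (A : Matrix (Fin n) (Fin n) ℂ) {k : Fin n} (ε : ℂ) {K : Finset (Fin n)} (hk : k ∉ K)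
    (hK : pm A K ≠ 0) {i j : Fin n} (hij : i ≠ j) : pp (dg A k ε) K i j = pp A K i j := by
  rw [pp_eq_sc _ K (by rwa [pm_dg_notMem A ε hk]), pp_eq_sc A K hK, pm_dg_notMem A ε hk, sc_dg A ε hk,
    if_neg, add_zero]
  rintro ⟨rfl, h⟩
  exact hij h.symm

theorem pp_dg_insert (A : Matrix (Fin n) (Fin n) ℂ) {k : Fin n} (ε : ℂ) {K : Finset (Fin n)} (hk : k ∉ K)
    (hK : pm A K ≠ 0) {i j : Fin n} (hi : i ≠ k) (hj : j ≠ k) :
    pp (dg A k ε) (insert k K) i j = pp A (insert k K) i j + ε * pp A K i j := by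
  rw [pp_insert _ (by rwa [pm_dg_notMem A ε hk]) hk, pp_insert A hK hk, pp_eq_sc A K hK,
    pm_dg_notMem A ε hk, sc_dg A ε hk, sc_dg A ε hk, sc_dg A ε hk, sc_dg A ε hk, if_pos ⟨rfl, rfl⟩,
    if_neg (by rintro ⟨h, _⟩; exact hi h), if_neg (by rintro ⟨_, h⟩; exact hj h),
    if_neg (by rintro ⟨h, _⟩; exact hi h)]
  ring

end Pool.Agent.Helper85.SVG
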