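import Mathlib
import Pool.Agent.Helper85.SVG.Det

/-!
The class `W c`, and the three perturbation steps.
-/

namespace Pool.Agent.Helper85.SVG

open Matrix Finset Pool.Agent.Helper5.GKK Filter Topology
open scoped ComplexOrder

variable {n : ℕ}

/-- GKK matrices for which paired almost principal minors have ratio at most `c` -/
def W (c : ℝ) (A : Matrix (Fin n) (Fin n) ℂ) : Prop :=
  (∀ S, 0 < pm A S) ∧ ∀ K i j, i ∉ K → j ∉ K → i ≠ j →
    0 ≤ ap A K i j ∧ ‖pp A K i j‖ ≤ c * ‖pp A K j i‖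

theorem W.mono {c c' : ℝ} {A : Matrix (Fin n) (Fin n) ℂ} (h : W c A) (hc : c ≤ c') : W c' A :=
  ⟨h.1, fun K i j hi hj hij => ⟨(h.2 K i j hi hj hij).1,
    (h.2 K i j hi hj hij).2.trans (mul_le_mul_of_nonneg_right hc (norm_nonneg _))⟩⟩

theorem W.zero {c : ℝ} {A : Matrix (Fin n) (Fin n) ℂ} (h : W c A) {K : Finset (Fin n)} {i j : Fin n}
    (hi : i ∉ K) (hj : j ∉ K) (hij : i ≠ j) (h0 : pp A K i j = 0) : pp A K j i = 0 := by
  have := (h.2 K j i hj hi hij.symm).2
  rw [h0, norm_zero, mul_zero] at this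
  exact norm_le_zero_iff.mp this

theorem W.pos {c : ℝ} {A : Matrix (Fin n) (Fin n) ℂ} (h : W c A) {K : Finset (Fin n)} {i j : Fin n}
    (hi : i ∉ K) (hj : j ∉ K) (hij : i ≠ j) (h0 : pp A K i j ≠ 0) : 0 < ap A K i j := by
  refine lt_of_le_of_ne (h.2 K i j hi hj hij).1 (Ne.symm ?_)
  rw [ap_eq_pp A h.1 hi hj hij]
  exact mul_ne_zero h0 fun h1 => h0 (h.zero hj hi hij.symm h1)

/-- the number of vanishing almost principal minors -/
noncomputable def zc (A : Matrix (Fin n) (Fin n) ℂ) : ℕ := by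
  classical
  exact (univ.filter fun x : Finset (Fin n) × Fin n × Fin n =>
    x.2.1 ∉ x.1 ∧ x.2.2 ∉ x.1 ∧ x.2.1 ≠ x.2.2 ∧ pp A x.1 x.2.1 x.2.2 = 0).card

theorem continuous_pm (S : Finset (Fin n)) : Continuous fun A : Matrix (Fin n) (Fin n) ℂ => pm A S := by
  unfold pm
  exact (continuous_id.matrix_submatrix _ _).matrix_det

theorem continuous_pp (K : Finset (Fin n)) (i j : Fin n) :
    Continuous fun A : Matrix (Fin n) (Fin n) ℂ => pp A K i j := by
  unfold pp
  exact (continuous_id.matrix_submatrix _ _).matrix_det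

theorem continuous_ap (K : Finset (Fin n)) (i j : Fin n) :
    Continuous fun A : Matrix (Fin n) (Fin n) ℂ => ap A K i j := by
  unfold ap
  exact ((continuous_pm _).mul (continuous_pm _)).sub ((continuous_pm _).mul (continuous_pm _))

theorem im_ap {A : Matrix (Fin n) (Fin n) ℂ} (hP : ∀ S, 0 < pm A S) (K : Finset (Fin n)) (i j : Fin n) :
    (ap A K i j).im = 0 := by
  have h : ∀ S, (pm A S).im = 0 := fun S => ((Complex.lt_def.mp (hP S)).2).symm
  simp [ap, Complex.sub_im, Complex.mul_im, h]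

variable {F : ℝ → Matrix (Fin n) (Fin n) ℂ} {A : Matrix (Fin n) (Fin n) ℂ} {c c' : ℝ}

theorem step (hc : 0 < c) (hc' : 2 * c ≤ c') (hW : W c A) (hF : Tendsto F (𝓝[>] 0) (𝓝 A))
    (hpm : ∀ᶠ ε : ℝ in 𝓝[>] (0:ℝ), ∀ S, 0 < pm (F ε) S)
    (hz : ∀ K i j, i ∉ K → j ∉ K → i ≠ j → pp A K i j = 0 →
      ∀ᶠ ε : ℝ in 𝓝[>] (0:ℝ), 0 ≤ ap (F ε) K i j ∧ ‖pp (F ε) K i j‖ ≤ c' * ‖pp (F ε) K j i‖) :
    ∀ᶠ ε : ℝ in 𝓝[>] (0:ℝ), W c' (F ε) := by
  have h1 : ∀ᶠ ε : ℝ in 𝓝[>] (0:ℝ), ∀ K i j, i ∉ K → j ∉ K → i ≠ j →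
      0 ≤ ap (F ε) K i j ∧ ‖pp (F ε) K i j‖ ≤ c' * ‖pp (F ε) K j i‖ := by
    refine eventually_all.mpr fun K => eventually_all.mpr fun i => eventually_all.mpr fun j => ?_
    by_cases hi : i ∈ K
    · exact Eventually.of_forall fun ε h => absurd hi h
    by_cases hj : j ∈ K
    · exact Eventually.of_forall fun ε _ h => absurd hj h
    by_cases hij : i = j
    · exact Eventually.of_forall fun ε _ _ h => absurd hij h
    by_cases h0 : pp A K i j = 0
    · filter_upwards [hz K i j hi hj hij h0] with ε h _ _ _ using h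
    have hap := hW.pos hi hj hij h0
    have t1 : Tendsto (fun ε => (ap (F ε) K i j).re) (𝓝[>] 0) (𝓝 (ap A K i j).re) :=
      (Complex.continuous_re.tendsto _).comp (((continuous_ap K i j).tendsto A).comp hF)
    have t2 : Tendsto (fun ε => ‖pp (F ε) K i j‖) (𝓝[>] 0) (𝓝 ‖pp A K i j‖) :=
      (((continuous_pp K i j).tendsto A).comp hF).norm
    have t3 : Tendsto (fun ε => c' * ‖pp (F ε) K j i‖) (𝓝[>] 0) (𝓝 (c' * ‖pp A K j i‖)) :=
      ((((continuous_pp K j i).tendsto A).comp hF).norm).const_mul c'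
    have hpos : 0 < ‖pp A K i j‖ := norm_pos_iff.mpr h0
    have hb := (hW.2 K i j hi hj hij).2
    have hlt : ‖pp A K i j‖ < c' * ‖pp A K j i‖ := by
      have h2 : 0 < ‖pp A K j i‖ := by
        by_contra h3
        have : ‖pp A K j i‖ = 0 := le_antisymm (not_lt.mp h3) (norm_nonneg _)
        rw [this, mul_zero] at hb
        linarith
      nlinarith
    filter_upwards [t1.eventually (lt_mem_nhds (Complex.lt_def.mp hap).1), t2.eventually_lt t3 hlt, hpm]
      with ε e1 e2 e3 _ _ _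
    refine ⟨Complex.le_def.mpr ⟨e1.le, ?_⟩, e2.le⟩
    rw [im_ap e3, Complex.zero_im]
  filter_upwards [hpm, h1] with ε e1 e2
  exact ⟨e1, e2⟩

theorem step_lt (hF : Tendsto F (𝓝[>] 0) (𝓝 A)) {K₀ : Finset (Fin n)} {i₀ j₀ : Fin n} (hi : i₀ ∉ K₀)
    (hj : j₀ ∉ K₀) (hij : i₀ ≠ j₀) (h0 : pp A K₀ i₀ j₀ = 0)
    (hne : ∀ᶠ ε : ℝ in 𝓝[>] (0:ℝ), pp (F ε) K₀ i₀ j₀ ≠ 0) :
    ∀ᶠ ε : ℝ in 𝓝[>] (0:ℝ), zc (F ε) < zc A := by
  classical
  have h1 : ∀ᶠ ε : ℝ in 𝓝[>] (0:ℝ), ∀ K i j, pp A K i j ≠ 0 → pp (F ε) K i j ≠ 0 := by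
    refine eventually_all.mpr fun K => eventually_all.mpr fun i => eventually_all.mpr fun j => ?_
    by_cases h0 : pp A K i j = 0
    · exact Eventually.of_forall fun ε h => absurd h0 h
    filter_upwards [(((continuous_pp K i j).tendsto A).comp hF).eventually_ne h0] with ε h _ using h
  filter_upwards [h1, hne] with ε e1 e2
  unfold zc
  refine card_lt_card ?_
  rw [Finset.ssubset_iff_of_subset]
  · refine ⟨(K₀, i₀, j₀), ?_, ?_⟩
    · simp [hi, hj, hij, h0]
    · simp [e2]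
  · intro x hx
    simp only [mem_filter, mem_univ, true_and] at hx ⊢
    refine ⟨hx.1, hx.2.1, hx.2.2.1, ?_⟩
    by_contra h
    exact e1 _ _ _ h hx.2.2.2

/-! ### first step: the diagonal -/

theorem tendsto_of_entries {F : ℝ → Matrix (Fin n) (Fin n) ℂ} {A : Matrix (Fin n) (Fin n) ℂ}
    (hc : Continuous F) (h0 : F 0 = A) : Tendsto F (𝓝[>] 0) (𝓝 A) := by
  have := hc.tendsto 0
  rw [h0] at this
  exact this.mono_left nhdsWithin_le_nhds

theorem tendsto_dg (A : Matrix (Fin n) (Fin n) ℂ) (k : Fin n) :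
    Tendsto (fun ε : ℝ => dg A k (ε : ℂ)) (𝓝[>] 0) (𝓝 A) := by
  refine tendsto_of_entries ?_ ?_
  · refine continuous_matrix fun i j => ?_
    simp only [dg_apply]
    by_cases h : i = k ∧ j = k
    · simp only [if_pos h]
      exact continuous_const.add Complex.continuous_ofReal
    · simp only [if_neg h]
      exact continuous_const
  · ext i j
    rw [dg_apply]
    simp

theorem ofReal_pos' {ε : ℝ} (h : 0 < ε) : (0 : ℂ) < (ε : ℂ) := by exact_mod_cast h

theorem pm_dg_pos {A : Matrix (Fin n) (Fin n) ℂ} (hP : ∀ S, 0 < pm A S) (k : Fin n) {ε : ℝ} (hε : 0 < ε)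
    (S : Finset (Fin n)) : 0 < pm (dg A k (ε : ℂ)) S := by
  by_cases hk : k ∈ S
  · rw [← insert_erase hk, pm_dg_insert A _ (notMem_erase k S) (hP _).ne']
    exact add_pos (hP _) (mul_pos (ofReal_pos' hε) (hP _))
  · rw [pm_dg_notMem A _ hk]
    exact hP S

theorem step_dg (hc : 0 < c) (hc' : 2 * c ≤ c') (hW : W c A) (k : Fin n) :
    ∀ᶠ ε : ℝ in 𝓝[>] (0:ℝ), W c' (dg A k (ε : ℂ)) := by
  have e0 : ∀ᶠ ε : ℝ in 𝓝[>] (0:ℝ), 0 < ε := self_mem_nhdsWithin
  refine step hc hc' hW (tendsto_dg A k) ?_ ?_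
  · filter_upwards [e0] with ε hε S using pm_dg_pos hW.1 k hε S
  · intro K i j hi hj hij h0
    have h0' := hW.zero hi hj hij h0
    filter_upwards [e0] with ε hε
    rw [ap_eq_pp _ (pm_dg_pos hW.1 k hε) hi hj hij]
    by_cases hk : k ∈ K
    · have hi' : i ≠ k := fun h => hi (h ▸ hk)
      have hj' : j ≠ k := fun h => hj (h ▸ hk)
      have hiK : i ∉ K.erase k := fun h => hi (mem_of_mem_erase h)
      have hjK : j ∉ K.erase k := fun h => hj (mem_of_mem_erase h)
      have r1 := pp_dg_insert A (ε : ℂ) (notMem_erase k K) (hW.1 _).ne' hi' hj'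
      have r2 := pp_dg_insert A (ε : ℂ) (notMem_erase k K) (hW.1 _).ne' hj' hi'
      rw [insert_erase hk, h0, zero_add] at r1
      rw [insert_erase hk, h0', zero_add] at r2
      rw [r1, r2]
      have hw := hW.2 (K.erase k) i j hiK hjK hij
      rw [ap_eq_pp _ hW.1 hiK hjK hij] at hw
      constructor
      · have e : (ε : ℂ) * pp A (K.erase k) i j * ((ε : ℂ) * pp A (K.erase k) j i)
            = (ε : ℂ) * (ε : ℂ) * (pp A (K.erase k) i j * pp A (K.erase k) j i) := by ring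
        rw [e]
        exact mul_nonneg (mul_pos (ofReal_pos' hε) (ofReal_pos' hε)).le hw.1
      · rw [norm_mul, norm_mul]
        have h3 : c * ‖pp A (K.erase k) j i‖ ≤ c' * ‖pp A (K.erase k) j i‖ :=
          mul_le_mul_of_nonneg_right (by linarith) (norm_nonneg _)
        have h4 := hw.2.trans h3
        have := mul_le_mul_of_nonneg_left h4 (norm_nonneg (ε : ℂ))
        linarith
    · rw [pp_dg_notMem A _ hk (hW.1 _).ne' hij, pp_dg_notMem A _ hk (hW.1 _).ne' hij.symm, h0, h0']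
      simp

/-! ### second step: the inverse diagonal -/

theorem tendsto_rk (A : Matrix (Fin n) (Fin n) ℂ) (k : Fin n) :
    Tendsto (fun ε : ℝ => rk A k (ε : ℂ)) (𝓝[>] 0) (𝓝 A) := by
  refine tendsto_of_entries ?_ ?_
  · refine continuous_matrix fun i j => ?_
    simp only [rk, of_apply]
    exact continuous_const.sub ((Complex.continuous_ofReal.mul continuous_const).mul continuous_const)
  · ext i j
    simp [rk]

theorem pm_rk_pos (hP : ∀ S, 0 < pm A S) (k : Fin n) :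
    ∀ᶠ ε : ℝ in 𝓝[>] (0:ℝ), 0 < ε ∧ (0:ℂ) < 1 - (ε : ℂ) * A k k ∧ ∀ S, 0 < pm (rk A k (ε : ℂ)) S := by
  have e0 : ∀ᶠ ε : ℝ in 𝓝[>] (0:ℝ), 0 < ε := self_mem_nhdsWithin
  have hkk : (0:ℂ) < A k k := by
    have := hP {k}
    have h2 := pm_insert A ∅ k (hP ∅).ne' (by simp)
    have h3 : pm A ∅ = 1 := by simp [pm]
    have h4 : sc A ∅ k k = A k k := by simp [sc]
    rw [h3, h4, one_mul] at h2
    rw [← h2]
    exact hP _
  have e1 : ∀ᶠ ε : ℝ in 𝓝[>] (0:ℝ), ε * (A k k).re < 1 := by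
    have : Tendsto (fun ε : ℝ => ε * (A k k).re) (𝓝 0) (𝓝 (0 * (A k k).re)) :=
      tendsto_id.mul_const _
    rw [zero_mul] at this
    exact (this.eventually (gt_mem_nhds one_pos)).filter_mono nhdsWithin_le_nhds
  filter_upwards [e0, e1] with ε h0 h1
  have h2 : (0:ℂ) < 1 - (ε : ℂ) * A k k := by
    rw [Complex.lt_def]
    have him : (A k k).im = 0 := ((Complex.lt_def.mp hkk).2).symm
    constructor
    · simp only [Complex.zero_re, Complex.sub_re, Complex.one_re, Complex.mul_re, Complex.ofReal_re,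
        Complex.ofReal_im, him, mul_zero, sub_zero]
      linarith
    · simp [him]
  refine ⟨h0, h2, fun S => ?_⟩
  by_cases hk : k ∈ S
  · rw [pm_rk_mem A _ hk]
    exact mul_pos h2 (hP S)
  · rw [pm_rk_notMem A _ hk]
    exact add_pos (mul_pos h2 (hP S)) (mul_pos (ofReal_pos' h0) (hP _))

theorem step_rk (hc : 0 < c) (hc' : 2 * c ≤ c') (hW : W c A) (k : Fin n) :
    ∀ᶠ ε : ℝ in 𝓝[>] (0:ℝ), W c' (rk A k (ε : ℂ)) := by
  have e0 := pm_rk_pos hW.1 k
  refine step hc hc' hW (tendsto_rk A k) ?_ ?_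
  · filter_upwards [e0] with ε hε using hε.2.2
  · intro K i j hi hj hij h0
    have h0' := hW.zero hi hj hij h0
    filter_upwards [e0] with ε hε
    rw [ap_eq_pp _ hε.2.2 hi hj hij]
    by_cases hk : k ∈ K ∨ k = i ∨ k = j
    · have hk' : k ∈ K ∨ k = j ∨ k = i := by tauto
      rw [pp_rk_mem A _ hk, pp_rk_mem A _ hk', h0, h0']
      simp
    · push Not at hk
      obtain ⟨hk, hki, hkj⟩ := hk
      have hiK : i ∉ insert k K := by
        simp only [mem_insert, not_or]; exact ⟨hki.symm, hi⟩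
      have hjK : j ∉ insert k K := by
        simp only [mem_insert, not_or]; exact ⟨hkj.symm, hj⟩
      rw [pp_rk_notMem A _ hk, pp_rk_notMem A _ hk, h0, h0', mul_zero, zero_add, zero_add]
      have hw := hW.2 (insert k K) i j hiK hjK hij
      rw [ap_eq_pp _ hW.1 hiK hjK hij] at hw
      constructor
      · have e : (ε : ℂ) * pp A (insert k K) i j * ((ε : ℂ) * pp A (insert k K) j i)
            = (ε : ℂ) * (ε : ℂ) * (pp A (insert k K) i j * pp A (insert k K) j i) := by ring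
        rw [e]
        exact mul_nonneg (mul_pos (ofReal_pos' hε.1) (ofReal_pos' hε.1)).le hw.1
      · rw [norm_mul, norm_mul]
        have h3 : c * ‖pp A (insert k K) j i‖ ≤ c' * ‖pp A (insert k K) j i‖ :=
          mul_le_mul_of_nonneg_right (by linarith) (norm_nonneg _)
        have h4 := hw.2.trans h3
        have := mul_le_mul_of_nonneg_left h4 (norm_nonneg (ε : ℂ))
        linarith

end Pool.Agent.Helper85.SVG
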