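import Mathlib
import Pool.Agent.Helper85.SVG.Step

/-!
Third step: connecting two blocks.
-/

namespace Pool.Agent.Helper85.SVG

open Matrix Finset Pool.Agent.Helper5.GKK Filter Topology
open scoped ComplexOrder

set_option linter.unusedSimpArgs false

variable {n : ℕ}

/-- `A + ε (E_ab + E_ba)` -/
noncomputable def cn (A : Matrix (Fin n) (Fin n) ℂ) (a b : Fin n) (ε : ℂ) : Matrix (Fin n) (Fin n) ℂ :=
  of fun x y => A x y + if (x = a ∧ y = b) ∨ (x = b ∧ y = a) then ε else 0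

theorem cn_apply (A : Matrix (Fin n) (Fin n) ℂ) (a b : Fin n) (ε : ℂ) (x y : Fin n) :
    cn A a b ε x y = A x y + if (x = a ∧ y = b) ∨ (x = b ∧ y = a) then ε else 0 := rfl

theorem tendsto_cn (A : Matrix (Fin n) (Fin n) ℂ) (a b : Fin n) :
    Tendsto (fun ε : ℝ => cn A a b (ε : ℂ)) (𝓝[>] 0) (𝓝 A) := by
  refine tendsto_of_entries ?_ ?_
  · refine continuous_matrix fun i j => ?_
    simp only [cn_apply]
    by_cases h : (i = a ∧ j = b) ∨ (i = b ∧ j = a)
    · simp only [if_pos h]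
      exact continuous_const.add Complex.continuous_ofReal
    · simp only [if_neg h]
      exact continuous_const
  · ext i j
    rw [cn_apply]
    simp

/-- not both in `S` -/
theorem pm_cn (A : Matrix (Fin n) (Fin n) ℂ) {a b : Fin n} (ε : ℂ) {S : Finset (Fin n)}
    (h : ¬ (a ∈ S ∧ b ∈ S)) : pm (cn A a b ε) S = pm A S := by
  refine pm_congr fun x hx y hy => ?_
  rw [cn_apply, if_neg, add_zero]
  rintro (⟨rfl, rfl⟩ | ⟨rfl, rfl⟩)
  · exact h ⟨hx, hy⟩
  · exact h ⟨hy, hx⟩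

/-- `a`, `b` not in `S` -/
theorem sc_cn (A : Matrix (Fin n) (Fin n) ℂ) {a b : Fin n} (ε : ℂ) {S : Finset (Fin n)}
    (ha : a ∉ S) (hb : b ∉ S) (x y : Fin n) :
    sc (cn A a b ε) S x y = sc A S x y + if (x = a ∧ y = b) ∨ (x = b ∧ y = a) then ε else 0 := by
  rw [sc_congr (A := A) (B := cn A a b ε), cn_apply]
  · ring
  · intro x hx y hy
    rw [cn_apply, if_neg, add_zero]
    rintro (⟨rfl, rfl⟩ | ⟨rfl, rfl⟩)
    · exact ha hx
    · exact hb hx
  · intro y hy
    rw [cn_apply, if_neg, add_zero]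
    rintro (⟨_, rfl⟩ | ⟨_, rfl⟩)
    · exact hb hy
    · exact ha hy
  · intro x hx
    rw [cn_apply, if_neg, add_zero]
    rintro (⟨rfl, _⟩ | ⟨rfl, _⟩)
    · exact ha hx
    · exact hb hx

section

variable {A : Matrix (Fin n) (Fin n) ℂ} {c : ℝ}

/-- all almost principal minors of a pair vanish together -/
def Flat (A : Matrix (Fin n) (Fin n) ℂ) : Prop :=
  ∀ K i j, i ∉ K → j ∉ K → i ≠ j → (pp A K i j = 0 ↔ A i j = 0)

theorem pp_empty (A : Matrix (Fin n) (Fin n) ℂ) (i j : Fin n) : pp A ∅ i j = A i j := by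
  have h : pm A ∅ = 1 := by simp [pm]
  rw [pp_eq_sc A ∅ (by rw [h]; exact one_ne_zero), h, one_mul]
  simp [sc]

theorem W.symm0 (hW : W c A) {i j : Fin n} (hij : i ≠ j) (h : A i j = 0) : A j i = 0 := by
  have := hW.zero (K := ∅) (by simp) (by simp) hij (by rw [pp_empty]; exact h)
  rwa [pp_empty] at this

theorem Flat.trans (hf : Flat A) {i k j : Fin n} (hik : i ≠ k) (hkj : k ≠ j) (hij : i ≠ j)
    (h1 : A i k ≠ 0) (h2 : A k j ≠ 0) : A i j ≠ 0 := by
  intro h
  have h3 := (hf {k} i j (by simpa using hik) (by simpa using hkj.symm) hij).mpr h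
  have h0 : pm A ∅ = 1 := by simp [pm]
  have h4 := pp_insert A (K := ∅) (by rw [h0]; exact one_ne_zero) (k := k) (by simp) i j
  have hs : ∀ x y, sc A ∅ x y = A x y := by intro x y; simp [sc]
  rw [h0, one_mul, hs, hs, hs, hs, h, mul_zero, zero_sub] at h4
  rw [show insert k (∅ : Finset (Fin n)) = {k} from rfl, h3] at h4
  have h5 : A k j * A i k = 0 := by
    have := h4.symm
    rwa [neg_eq_zero] at this
  exact (mul_ne_zero h2 h1) h5

/-- the class of `a` -/
def cls (A : Matrix (Fin n) (Fin n) ℂ) (a : Fin n) : Set (Fin n) := {x | x = a ∨ A a x ≠ 0}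

theorem cls_block (hW : W c A) (hf : Flat A) (a : Fin n) :
    ∀ x y, x ∈ cls A a → y ∉ cls A a → A x y = 0 ∧ A y x = 0 := by
  intro x y hx hy
  have hya : y ≠ a := fun h => hy (Or.inl h)
  have hay : A a y = 0 := by
    by_contra h
    exact hy (Or.inr h)
  have hxy : x ≠ y := fun h => hy (h ▸ hx)
  have h1 : A x y = 0 := by
    by_cases hxa : x = a
    · rw [hxa]; exact hay
    · by_contra h
      rcases hx with hx | hx
      · exact hxa hx
      · exact hf.trans (Ne.symm hxa) hxy hya.symm hx h hay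
  exact ⟨h1, hW.symm0 hxy h1⟩

theorem sc_cls (hW : W c A) (hf : Flat A) (a : Fin n) (K : Finset (Fin n)) {x y : Fin n}
    (hx : x ∉ K) (hy : y ∉ K) (h : (x ∈ cls A a ∧ y ∉ cls A a) ∨ (x ∉ cls A a ∧ y ∈ cls A a)) :
    sc A K x y = 0 :=
  pp_block (fun S => (hW.1 S).ne') (cls A a) (fun x y hx hy => (cls_block hW hf a x y hx hy).1)
    (fun x y hx hy => (cls_block hW hf a x y hx hy).2) K x y h hx hy

theorem cnonneg_of_mul {p x : ℂ} (hp : 0 < p) (h : 0 ≤ p * x) : 0 ≤ x := by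
  obtain ⟨h1, h2⟩ := Complex.lt_def.mp hp
  obtain ⟨h3, h4⟩ := Complex.le_def.mp h
  simp only [Complex.zero_re, Complex.zero_im, Complex.mul_re, Complex.mul_im] at h1 h2 h3 h4
  rw [← h2] at h3 h4
  simp only [zero_mul, sub_zero, add_zero] at h3 h4
  refine Complex.le_def.mpr ⟨?_, ?_⟩
  · exact nonneg_of_mul_nonneg_right h3 h1
  · simp only [Complex.zero_im]
    rcases mul_eq_zero.mp h4.symm with h | h
    · exact absurd h h1.ne'
    · exact h.symm

theorem cpos_of_mul {p x : ℂ} (hp : 0 < p) (h : 0 < p * x) : 0 < x := by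
  refine lt_of_le_of_ne (cnonneg_of_mul hp h.le) ?_
  rintro rfl
  rw [mul_zero] at h
  exact lt_irrefl _ h

/-- products and ratios of `sc` -/
theorem W.sc_mul (hW : W c A) {K : Finset (Fin n)} {i j : Fin n} (hi : i ∉ K) (hj : j ∉ K) (hij : i ≠ j) :
    0 ≤ sc A K i j * sc A K j i ∧ ‖sc A K i j‖ ≤ c * ‖sc A K j i‖ := by
  have h := hW.2 K i j hi hj hij
  have hK := hW.1 K
  rw [ap_eq_pp A hW.1 hi hj hij, pp_eq_sc A K hK.ne', pp_eq_sc A K hK.ne', norm_mul, norm_mul] at h
  have h2 : 0 < pm A K * pm A K := mul_pos hK hK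
  constructor
  · have e : pm A K * sc A K i j * (pm A K * sc A K j i)
        = pm A K * pm A K * (sc A K i j * sc A K j i) := by ring
    rw [e] at h
    exact cnonneg_of_mul h2 h.1
  · have h3 : 0 < ‖pm A K‖ := norm_pos_iff.mpr hK.ne'
    have h4 : ‖pm A K‖ * ‖sc A K i j‖ ≤ ‖pm A K‖ * (c * ‖sc A K j i‖) := by linarith [h.2]
    exact le_of_mul_le_mul_left h4 h3

theorem W.sc_self (hW : W c A) {K : Finset (Fin n)} {i : Fin n} (hi : i ∉ K) : 0 < sc A K i i := by
  have h := hW.1 (insert i K)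
  rw [pm_insert A K i (hW.1 K).ne' hi] at h
  exact cpos_of_mul (hW.1 K) h

theorem pp_insert_insert' (A : Matrix (Fin n) (Fin n) ℂ) {K : Finset (Fin n)} (hK : pm A K ≠ 0)
    {a b : Fin n} (ha : a ∉ K) (hb : b ∉ K) (hab : a ≠ b) (i j : Fin n) :
    pp A (insert a (insert b K)) i j = pm A K *
      (sc A K a a * sc A K b b * sc A K i j - sc A K a a * sc A K b j * sc A K i b
        - sc A K a b * sc A K b a * sc A K i j + sc A K a b * sc A K b j * sc A K i a
        + sc A K a j * sc A K b a * sc A K i b - sc A K a j * sc A K b b * sc A K i a) := by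
  rw [pp_insert_insert A hK ha hb hab, det_fin_three]
  simp

/-- the shape of the changed minors -/
theorem pp_cn_shape (hc : 1 ≤ c) (hW : W c A) (hf : Flat A) {a b : Fin n} (hab : a ≠ b) (h0 : A a b = 0)
    {i j : Fin n} (hi : i ∈ cls A a) (hj : j ∉ cls A a) (K : Finset (Fin n)) (hiK : i ∉ K) (hjK : j ∉ K)
    (ε : ℂ) :
    ∃ κ s s' t t' : ℂ, 0 ≤ s * s' ∧ 0 ≤ t * t' ∧ ‖s‖ ≤ c * ‖s'‖ ∧ ‖t‖ ≤ c * ‖t'‖ ∧
      ‖s'‖ ≤ c * ‖s‖ ∧ ‖t'‖ ≤ c * ‖t‖ ∧ κ.im = 0 ∧
      pp (cn A a b ε) K i j = ε * κ * s * t ∧ pp (cn A a b ε) K j i = ε * κ * s' * t' := by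
  have him : ∀ S, (pm A S).im = 0 := fun S => ((Complex.lt_def.mp (hW.1 S)).2).symm
  have hacls : a ∈ cls A a := Or.inl rfl
  have hbcls : b ∉ cls A a := by
    rintro (h | h)
    · exact hab h.symm
    · exact h h0
  have hib : i ≠ b := fun h => hbcls (h ▸ hi)
  have hja : j ≠ a := fun h => hj (h ▸ hacls)
  have one1 : (0:ℂ) ≤ 1 * 1 := by norm_num
  have one2 : ‖(1:ℂ)‖ ≤ c * ‖(1:ℂ)‖ := by rw [norm_one, mul_one]; exact hc
  by_cases ha : a ∈ K
  · have hia : i ≠ a := fun h => hiK (h ▸ ha)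
    by_cases hb : b ∈ K
    · have hjb : j ≠ b := fun h => hjK (h ▸ hb)
      set K₀ := (K.erase a).erase b with hK₀
      have ha0 : a ∉ K₀ := fun h => notMem_erase a K (mem_of_mem_erase h)
      have hb0 : b ∉ K₀ := notMem_erase b _
      have hi0 : i ∉ K₀ := fun h => hiK (mem_of_mem_erase (mem_of_mem_erase h))
      have hj0 : j ∉ K₀ := fun h => hjK (mem_of_mem_erase (mem_of_mem_erase h))
      have hKe : K = insert a (insert b K₀) := by
        rw [hK₀, insert_erase (mem_erase.mpr ⟨hab.symm, hb⟩), insert_erase ha]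
      have hpm : pm (cn A a b ε) K₀ = pm A K₀ := pm_cn A ε (fun h => ha0 h.1)
      have hne : pm (cn A a b ε) K₀ ≠ 0 := by rw [hpm]; exact (hW.1 _).ne'
      have zab : sc A K₀ a b = 0 := sc_cls hW hf a K₀ ha0 hb0 (Or.inl ⟨hacls, hbcls⟩)
      have zba : sc A K₀ b a = 0 := sc_cls hW hf a K₀ hb0 ha0 (Or.inr ⟨hbcls, hacls⟩)
      have zaj : sc A K₀ a j = 0 := sc_cls hW hf a K₀ ha0 hj0 (Or.inl ⟨hacls, hj⟩)
      have zja : sc A K₀ j a = 0 := sc_cls hW hf a K₀ hj0 ha0 (Or.inr ⟨hj, hacls⟩)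
      have zib : sc A K₀ i b = 0 := sc_cls hW hf a K₀ hi0 hb0 (Or.inl ⟨hi, hbcls⟩)
      have zbi : sc A K₀ b i = 0 := sc_cls hW hf a K₀ hb0 hi0 (Or.inr ⟨hbcls, hi⟩)
      have zij : sc A K₀ i j = 0 := sc_cls hW hf a K₀ hi0 hj0 (Or.inl ⟨hi, hj⟩)
      have zji : sc A K₀ j i = 0 := sc_cls hW hf a K₀ hj0 hi0 (Or.inr ⟨hj, hi⟩)
      have w1 := hW.sc_mul hi0 ha0 hia
      have w1' := hW.sc_mul ha0 hi0 hia.symm
      have w2 := hW.sc_mul hb0 hj0 hjb.symm
      have w2' := hW.sc_mul hj0 hb0 hjb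
      refine ⟨pm A K₀, sc A K₀ i a, sc A K₀ a i, sc A K₀ b j, sc A K₀ j b, w1.1, w2.1, w1.2, w2.2,
        w1'.2, w2'.2, him _, ?_, ?_⟩
      · rw [hKe, pp_insert_insert' _ hne ha0 hb0 hab, hpm]
        simp only [sc_cn A ε ha0 hb0, zab, zba, zaj, zib, zij, hab, hab.symm, hja, hjb, hia, hib,
          and_false, false_and, or_self, and_self, or_true, true_or, if_true, if_false]
        ring
      · rw [hKe, pp_insert_insert' _ hne ha0 hb0 hab, hpm]
        simp only [sc_cn A ε ha0 hb0, zab, zba, zja, zbi, zji, hab, hab.symm, hja, hjb, hia, hib,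
          and_false, false_and, or_self, and_self, or_true, true_or, if_true, if_false]
        ring
    · set K₀ := K.erase a with hK₀
      have ha0 : a ∉ K₀ := notMem_erase a K
      have hb0 : b ∉ K₀ := fun h => hb (mem_of_mem_erase h)
      have hi0 : i ∉ K₀ := fun h => hiK (mem_of_mem_erase h)
      have hj0 : j ∉ K₀ := fun h => hjK (mem_of_mem_erase h)
      have hKe : K = insert a K₀ := by rw [hK₀, insert_erase ha]
      have hpm : pm (cn A a b ε) K₀ = pm A K₀ := pm_cn A ε (fun h => ha0 h.1)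
      have hne : pm (cn A a b ε) K₀ ≠ 0 := by rw [hpm]; exact (hW.1 _).ne'
      have zaj : sc A K₀ a j = 0 := sc_cls hW hf a K₀ ha0 hj0 (Or.inl ⟨hacls, hj⟩)
      have zja : sc A K₀ j a = 0 := sc_cls hW hf a K₀ hj0 ha0 (Or.inr ⟨hj, hacls⟩)
      have zij : sc A K₀ i j = 0 := sc_cls hW hf a K₀ hi0 hj0 (Or.inl ⟨hi, hj⟩)
      have zji : sc A K₀ j i = 0 := sc_cls hW hf a K₀ hj0 hi0 (Or.inr ⟨hj, hi⟩)
      by_cases hjb : j = b
      · have w1 := hW.sc_mul hi0 ha0 hia
        have w1' := hW.sc_mul ha0 hi0 hia.symm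
        refine ⟨-pm A K₀, sc A K₀ i a, sc A K₀ a i, 1, 1, w1.1, one1, w1.2, one2, w1'.2, one2,
          by rw [Complex.neg_im, him, neg_zero], ?_, ?_⟩
        · subst hjb
          rw [hKe, pp_insert _ hne ha0, hpm]
          simp only [sc_cn A ε ha0 hb0, zaj, zij, hab, hab.symm, hja, hia, hib,
            and_false, false_and, or_self, and_self, or_true, true_or, if_true, if_false]
          ring
        · subst hjb
          rw [hKe, pp_insert _ hne ha0, hpm]
          simp only [sc_cn A ε ha0 hb0, zja, zji, hab, hab.symm, hja, hia, hib,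
            and_false, false_and, or_self, and_self, or_true, true_or, if_true, if_false]
          ring
      · refine ⟨0, 1, 1, 1, 1, one1, one1, one2, one2, one2, one2, by simp, ?_, ?_⟩
        · rw [hKe, pp_insert _ hne ha0, hpm]
          simp only [sc_cn A ε ha0 hb0, zaj, zij, hab, hab.symm, hjb, hja, hia, hib,
            and_false, false_and, or_self, and_self, or_true, true_or, if_true, if_false]
          ring
        · rw [hKe, pp_insert _ hne ha0, hpm]
          simp only [sc_cn A ε ha0 hb0, zja, zji, hab, hab.symm, hjb, hja, hia, hib,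
            and_false, false_and, or_self, and_self, or_true, true_or, if_true, if_false]
          ring
  · by_cases hb : b ∈ K
    · have hjb : j ≠ b := fun h => hjK (h ▸ hb)
      set K₀ := K.erase b with hK₀
      have hb0 : b ∉ K₀ := notMem_erase b K
      have ha0 : a ∉ K₀ := fun h => ha (mem_of_mem_erase h)
      have hi0 : i ∉ K₀ := fun h => hiK (mem_of_mem_erase h)
      have hj0 : j ∉ K₀ := fun h => hjK (mem_of_mem_erase h)
      have hKe : K = insert b K₀ := by rw [hK₀, insert_erase hb]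
      have hpm : pm (cn A a b ε) K₀ = pm A K₀ := pm_cn A ε (fun h => ha0 h.1)
      have hne : pm (cn A a b ε) K₀ ≠ 0 := by rw [hpm]; exact (hW.1 _).ne'
      have zib : sc A K₀ i b = 0 := sc_cls hW hf a K₀ hi0 hb0 (Or.inl ⟨hi, hbcls⟩)
      have zbi : sc A K₀ b i = 0 := sc_cls hW hf a K₀ hb0 hi0 (Or.inr ⟨hbcls, hi⟩)
      have zij : sc A K₀ i j = 0 := sc_cls hW hf a K₀ hi0 hj0 (Or.inl ⟨hi, hj⟩)
      have zji : sc A K₀ j i = 0 := sc_cls hW hf a K₀ hj0 hi0 (Or.inr ⟨hj, hi⟩)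
      by_cases hia : i = a
      · have w2 := hW.sc_mul hb0 hj0 hjb.symm
        have w2' := hW.sc_mul hj0 hb0 hjb
        refine ⟨-pm A K₀, 1, 1, sc A K₀ b j, sc A K₀ j b, one1, w2.1, one2, w2.2, one2, w2'.2,
          by rw [Complex.neg_im, him, neg_zero], ?_, ?_⟩
        · subst hia
          rw [hKe, pp_insert _ hne hb0, hpm]
          simp only [sc_cn A ε ha0 hb0, zib, zij, hab, hab.symm, hja, hjb,
            and_false, false_and, or_self, and_self, or_true, true_or, if_true, if_false]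
          ring
        · subst hia
          rw [hKe, pp_insert _ hne hb0, hpm]
          simp only [sc_cn A ε ha0 hb0, zbi, zji, hab, hab.symm, hja, hjb,
            and_false, false_and, or_self, and_self, or_true, true_or, if_true, if_false]
          ring
      · refine ⟨0, 1, 1, 1, 1, one1, one1, one2, one2, one2, one2, by simp, ?_, ?_⟩
        · rw [hKe, pp_insert _ hne hb0, hpm]
          simp only [sc_cn A ε ha0 hb0, zib, zij, hab, hab.symm, hjb, hja, hia, hib,
            and_false, false_and, or_self, and_self, or_true, true_or, if_true, if_false]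
          ring
        · rw [hKe, pp_insert _ hne hb0, hpm]
          simp only [sc_cn A ε ha0 hb0, zbi, zji, hab, hab.symm, hjb, hja, hia, hib,
            and_false, false_and, or_self, and_self, or_true, true_or, if_true, if_false]
          ring
    · have hpm : pm (cn A a b ε) K = pm A K := pm_cn A ε (fun h => ha h.1)
      have hne : pm (cn A a b ε) K ≠ 0 := by rw [hpm]; exact (hW.1 _).ne'
      have zij : sc A K i j = 0 := sc_cls hW hf a K hiK hjK (Or.inl ⟨hi, hj⟩)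
      have zji : sc A K j i = 0 := sc_cls hW hf a K hjK hiK (Or.inr ⟨hj, hi⟩)
      by_cases h : i = a ∧ j = b
      · refine ⟨pm A K, 1, 1, 1, 1, one1, one1, one2, one2, one2, one2, him _, ?_, ?_⟩
        · rw [pp_eq_sc _ _ hne, hpm, sc_cn A ε ha hb, zij, if_pos (Or.inl h)]
          ring
        · rw [pp_eq_sc _ _ hne, hpm, sc_cn A ε ha hb, zji, if_pos (Or.inr ⟨h.2, h.1⟩)]
          ring
      · refine ⟨0, 1, 1, 1, 1, one1, one1, one2, one2, one2, one2, by simp, ?_, ?_⟩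
        · rw [pp_eq_sc _ _ hne, hpm, sc_cn A ε ha hb, zij, if_neg]
          · ring
          · rintro (h' | ⟨h', _⟩)
            · exact h h'
            · exact hib h'
        · rw [pp_eq_sc _ _ hne, hpm, sc_cn A ε ha hb, zji, if_neg]
          · ring
          · rintro (⟨h', _⟩ | ⟨h', h''⟩)
            · exact hja h'
            · exact h ⟨h'', h'⟩

theorem eventually_pm_cn (hW : W c A) (hf : Flat A) {a b : Fin n} (hab : a ≠ b) (h0 : A a b = 0) :
    ∀ᶠ ε : ℝ in 𝓝[>] (0:ℝ), ∀ S, 0 < pm (cn A a b (ε : ℂ)) S := by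
  have him : ∀ S, (pm A S).im = 0 := fun S => ((Complex.lt_def.mp (hW.1 S)).2).symm
  have hacls : a ∈ cls A a := Or.inl rfl
  have hbcls : b ∉ cls A a := by
    rintro (h | h)
    · exact hab h.symm
    · exact h h0
  refine eventually_all.mpr fun S => ?_
  have t1 : Tendsto (fun ε : ℝ => (pm (cn A a b (ε : ℂ)) S).re) (𝓝[>] 0) (𝓝 (pm A S).re) :=
    (Complex.continuous_re.tendsto _).comp (((continuous_pm S).tendsto A).comp (tendsto_cn A a b))
  filter_upwards [t1.eventually (lt_mem_nhds (Complex.lt_def.mp (hW.1 S)).1)] with ε hε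
  refine Complex.lt_def.mpr ⟨hε, ?_⟩
  rw [Complex.zero_im]
  symm
  by_cases h : a ∈ S ∧ b ∈ S
  · set K₀ := (S.erase a).erase b with hK₀
    have ha0 : a ∉ K₀ := fun h => notMem_erase a S (mem_of_mem_erase h)
    have hb0 : b ∉ K₀ := notMem_erase b _
    have hKe : S = insert a (insert b K₀) := by
      rw [hK₀, insert_erase (mem_erase.mpr ⟨hab.symm, h.2⟩), insert_erase h.1]
    have hpm : pm (cn A a b (ε : ℂ)) K₀ = pm A K₀ := pm_cn A _ (fun h => ha0 h.1)
    have hne : pm (cn A a b (ε : ℂ)) K₀ ≠ 0 := by rw [hpm]; exact (hW.1 _).ne'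
    have zab : sc A K₀ a b = 0 := sc_cls hW hf a K₀ ha0 hb0 (Or.inl ⟨hacls, hbcls⟩)
    have zba : sc A K₀ b a = 0 := sc_cls hW hf a K₀ hb0 ha0 (Or.inr ⟨hbcls, hacls⟩)
    have i1 : (sc A K₀ a a).im = 0 := ((Complex.lt_def.mp (hW.sc_self ha0)).2).symm
    have i2 : (sc A K₀ b b).im = 0 := ((Complex.lt_def.mp (hW.sc_self hb0)).2).symm
    rw [hKe, pm_insert_insert _ K₀ a b hne ha0 hb0 hab, hpm]
    simp only [sc_cn A (ε : ℂ) ha0 hb0, zab, zba, hab, hab.symm, and_false, false_and, or_self,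
      and_self, or_true, true_or, if_true, if_false]
    simp [Complex.mul_im, Complex.sub_im, him, i1, i2]
  · rw [pm_cn A _ h, him]

theorem blk (hW : W c A) (hf : Flat A) {a b : Fin n} {i j : Fin n} (hij : i ≠ j) (h0 : A i j = 0)
    (ha : a ∉ cls A i) (hb : b ∉ cls A i) (K : Finset (Fin n)) (hiK : i ∉ K) (hjK : j ∉ K) (ε : ℂ)
    (hpm : ∀ S, pm (cn A a b ε) S ≠ 0) :
    pp (cn A a b ε) K i j = 0 ∧ pp (cn A a b ε) K j i = 0 := by
  have hi : i ∈ cls A i := Or.inl rfl
  have hj : j ∉ cls A i := by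
    rintro (h | h)
    · exact hij h.symm
    · exact h h0
  have h1 : ∀ x y, x ∈ cls A i → y ∉ cls A i → cn A a b ε x y = 0 := by
    intro x y hx hy
    rw [cn_apply, (cls_block hW hf i x y hx hy).1, if_neg, add_zero]
    rintro (⟨h, _⟩ | ⟨h, _⟩)
    · exact ha (h ▸ hx)
    · exact hb (h ▸ hx)
  have h2 : ∀ x y, x ∈ cls A i → y ∉ cls A i → cn A a b ε y x = 0 := by
    intro x y hx hy
    rw [cn_apply, (cls_block hW hf i x y hx hy).2, if_neg, add_zero]
    rintro (⟨_, h⟩ | ⟨_, h⟩)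
    · exact hb (h ▸ hx)
    · exact ha (h ▸ hx)
  rw [pp_eq_sc _ _ (hpm _), pp_eq_sc _ _ (hpm _), pp_block hpm (cls A i) h1 h2 K i j (Or.inl ⟨hi, hj⟩) hiK hjK,
    pp_block hpm (cls A i) h1 h2 K j i (Or.inr ⟨hj, hi⟩) hjK hiK]
  simp

theorem not_mem_cls_symm (hW : W c A) {a i : Fin n} (h : i ∉ cls A a) : a ∉ cls A i := by
  have hia : i ≠ a := fun h' => h (Or.inl h')
  have h1 : A a i = 0 := by
    by_contra h'
    exact h (Or.inr h')
  rintro (h' | h')
  · exact hia h'.symm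
  · exact h' (hW.symm0 hia.symm h1)

theorem step_cn {c' : ℝ} (hc : 1 ≤ c) (hc' : 2 * c ^ 2 ≤ c') (hW : W c A) (hf : Flat A) {a b : Fin n}
    (hab : a ≠ b) (h0 : A a b = 0) : ∀ᶠ ε : ℝ in 𝓝[>] (0:ℝ), W c' (cn A a b (ε : ℂ)) := by
  have e0 : ∀ᶠ ε : ℝ in 𝓝[>] (0:ℝ), 0 < ε := self_mem_nhdsWithin
  have e1 := eventually_pm_cn hW hf hab h0
  have hcc : c ^ 2 ≤ c' := by nlinarith
  refine step (by linarith) (by nlinarith) hW (tendsto_cn A a b) e1 ?_
  intro K i j hi hj hij hz
  have key : ∀ κ s s' t t' ε : ℂ, 0 ≤ s * s' → 0 ≤ t * t' → ‖s‖ ≤ c * ‖s'‖ → ‖t‖ ≤ c * ‖t'‖ →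
      κ.im = 0 → ε.im = 0 → 0 ≤ (ε * κ * s * t) * (ε * κ * s' * t') ∧
        ‖ε * κ * s * t‖ ≤ c' * ‖ε * κ * s' * t'‖ := by
    intro κ s s' t t' ε h1 h2 h3 h4 h5 h6
    have hκ : 0 ≤ κ * κ := by
      refine Complex.le_def.mpr ⟨?_, ?_⟩
      · simp only [Complex.zero_re, Complex.mul_re, h5, mul_zero, sub_zero]
        exact mul_self_nonneg _
      · simp [h5]
    have hε : 0 ≤ ε * ε := by
      refine Complex.le_def.mpr ⟨?_, ?_⟩
      · simp only [Complex.zero_re, Complex.mul_re, h6, mul_zero, sub_zero]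
        exact mul_self_nonneg _
      · simp [h6]
    constructor
    · have e : (ε * κ * s * t) * (ε * κ * s' * t') = (ε * ε) * (κ * κ) * ((s * s') * (t * t')) := by ring
      rw [e]
      exact mul_nonneg (mul_nonneg hε hκ) (mul_nonneg h1 h2)
    · have h7 : ‖s‖ * ‖t‖ ≤ c ^ 2 * (‖s'‖ * ‖t'‖) := by
        have := mul_le_mul h3 h4 (norm_nonneg _) (mul_nonneg (by linarith) (norm_nonneg _))
        calc _ ≤ _ := this
          _ = _ := by ring
      have h8 : c ^ 2 * (‖s'‖ * ‖t'‖) ≤ c' * (‖s'‖ * ‖t'‖) :=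
        mul_le_mul_of_nonneg_right hcc (mul_nonneg (norm_nonneg _) (norm_nonneg _))
      have h9 := mul_le_mul_of_nonneg_left (h7.trans h8) (norm_nonneg (ε * κ))
      calc ‖ε * κ * s * t‖ = ‖ε * κ‖ * (‖s‖ * ‖t‖) := by rw [norm_mul, norm_mul]; ring
        _ ≤ _ := h9
        _ = _ := by rw [norm_mul (ε * κ * s') t', norm_mul (ε * κ) s']; ring
  filter_upwards [e1] with ε hε
  rw [ap_eq_pp _ hε hi hj hij]
  by_cases h1 : i ∈ cls A a <;> by_cases h2 : j ∈ cls A a
  · exfalso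
    have h3 := (hf K i j hi hj hij).mp hz
    have hai : i = a ∨ A a i ≠ 0 := h1
    have haj : j = a ∨ A a j ≠ 0 := h2
    rcases hai with rfl | hai
    · rcases haj with haj | haj
      · exact hij haj.symm
      · exact haj h3
    · rcases haj with rfl | haj
      · exact hai (hW.symm0 hij h3)
      · by_cases hia : i = a
        · subst hia; exact haj h3
        by_cases hja : j = a
        · subst hja; exact hai (hW.symm0 hij h3)
        have h4 : A i a ≠ 0 := fun h => hai (hW.symm0 hia h)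
        exact hf.trans hia (Ne.symm hja) hij h4 haj h3
  · obtain ⟨κ, s, s', t, t', g1, g2, g3, g4, g5, g6, g7, g8, g9⟩ :=
      pp_cn_shape hc hW hf hab h0 h1 h2 K hi hj (ε : ℂ)
    rw [g8, g9]
    exact key κ s s' t t' ε g1 g2 g3 g4 g7 (Complex.ofReal_im ε)
  · obtain ⟨κ, s, s', t, t', g1, g2, g3, g4, g5, g6, g7, g8, g9⟩ :=
      pp_cn_shape hc hW hf hab h0 h2 h1 K hj hi (ε : ℂ)
    rw [g8, g9]
    exact key κ s' s t' t ε (by rwa [mul_comm]) (by rwa [mul_comm]) g5 g6 g7 (Complex.ofReal_im ε)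
  · have h3 := (hf K i j hi hj hij).mp hz
    have h3' := hW.symm0 hij h3
    have hne : ∀ S, pm (cn A a b (ε : ℂ)) S ≠ 0 := fun S => (hε S).ne'
    have hz2 : pp (cn A a b (ε : ℂ)) K i j = 0 ∧ pp (cn A a b (ε : ℂ)) K j i = 0 := by
      by_cases hb : b ∈ cls A i
      · have hb' : b ∉ cls A j := by
          rintro (h | h)
          · rcases hb with h' | h'
            · exact hij (h'.symm.trans h)
            · exact h' (h ▸ h3)
          · by_cases hbi : b = i
            · exact h (hbi ▸ h3')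
            · rcases hb with h' | h'
              · exact hbi h'
              · by_cases hbj : b = j
                · exact h' (hbj ▸ h3)
                · have h5 : A b j ≠ 0 := fun h6 => h (hW.symm0 hbj h6)
                  exact hf.trans (Ne.symm hbi) hbj hij h' h5 h3
        have := blk hW hf hij.symm h3' (not_mem_cls_symm hW h2) hb' K hj hi (ε : ℂ) hne
        exact ⟨this.2, this.1⟩
      · exact blk hW hf hij h3 (not_mem_cls_symm hW h1) hb K hi hj (ε : ℂ) hne
    rw [hz2.1, hz2.2]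
    simp

end

end Pool.Agent.Helper85.SVG
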