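import Mathlib
import Pool.Agent.Helper85.SVG.Conn

/-!
The limits of strict GKK matrices with bounded ratios of paired almost principal minors.
-/

namespace Pool.Agent.Helper85.SVG

open Matrix Finset Pool.Agent.Helper5.GKK Filter Topology
open scoped ComplexOrder

variable {n : ℕ}

theorem exists_zero {A : Matrix (Fin n) (Fin n) ℂ} (h : 0 < zc A) :
    ∃ K i j, i ∉ K ∧ j ∉ K ∧ i ≠ j ∧ pp A K i j = 0 := by
  classical
  unfold zc at h
  obtain ⟨⟨K, i, j⟩, hx⟩ := card_pos.mp h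
  simp only [mem_filter, mem_univ, true_and] at hx
  exact ⟨K, i, j, hx⟩

theorem strict_of_zc {c : ℝ} {A : Matrix (Fin n) (Fin n) ℂ} (hW : W c A) (h : zc A = 0) :
    IsStrictGKK A := by
  classical
  rw [isStrictGKK_iff]
  refine ⟨hW.1, fun K i j hi hj hij => hW.pos hi hj hij fun h0 => ?_⟩
  unfold zc at h
  have : ((K, i, j) : Finset (Fin n) × Fin n × Fin n) ∈ (univ.filter fun x : Finset (Fin n) × Fin n × Fin n =>
    x.2.1 ∉ x.1 ∧ x.2.2 ∉ x.1 ∧ x.2.1 ≠ x.2.2 ∧ pp A x.1 x.2.1 x.2.2 = 0) := by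
    simp [hi, hj, hij, h0]
  rw [card_eq_zero.mp h] at this
  exact absurd this (notMem_empty _)

/-- the target set -/
def U (n : ℕ) (c : ℝ) : Set (Matrix (Fin n) (Fin n) ℂ) := {B | IsStrictGKK B ∧ W c B}

theorem mem_closure_U (z : ℕ) : ∀ c : ℝ, 1 ≤ c → ∃ c' : ℝ, ∀ A : Matrix (Fin n) (Fin n) ℂ,
    W c A → zc A ≤ z → A ∈ closure (U n c') := by
  induction z with
  | zero =>
    intro c _
    exact ⟨c, fun A hW hz => subset_closure ⟨strict_of_zc hW (Nat.le_zero.mp hz), hW⟩⟩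
  | succ z ih =>
    intro c hc
    have hc2 : (1:ℝ) ≤ 2 * c ^ 2 := by nlinarith
    obtain ⟨c', hc'⟩ := ih (2 * c ^ 2) hc2
    refine ⟨c', fun A hW hz => ?_⟩
    rcases Nat.lt_or_ge z (zc A) with hlt | hle
    swap
    · exact hc' A (hW.mono (by nlinarith)) hle
    have hzc : zc A = z + 1 := by omega
    have hc1 : 2 * c ≤ 2 * c ^ 2 := by nlinarith
    have close : ∀ F : ℝ → Matrix (Fin n) (Fin n) ℂ, Tendsto F (𝓝[>] 0) (𝓝 A) →
        (∀ᶠ ε : ℝ in 𝓝[>] (0:ℝ), W (2 * c ^ 2) (F ε)) → (∀ᶠ ε : ℝ in 𝓝[>] (0:ℝ), zc (F ε) < zc A) →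
        A ∈ closure (U n c') := by
      intro F hF h1 h2
      have h3 : ∀ᶠ ε : ℝ in 𝓝[>] (0:ℝ), F ε ∈ closure (U n c') := by
        filter_upwards [h1, h2] with ε e1 e2
        exact hc' _ e1 (by omega)
      have := mem_closure_of_tendsto hF h3
      rwa [closure_closure] at this
    have e0 : ∀ᶠ ε : ℝ in 𝓝[>] (0:ℝ), 0 < ε := self_mem_nhdsWithin
    by_cases c1 : ∃ (K : Finset (Fin n)) (k i j : Fin n), k ∉ K ∧ i ∉ insert k K ∧ j ∉ insert k K ∧ i ≠ j ∧
        pp A (insert k K) i j = 0 ∧ pp A K i j ≠ 0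
    · obtain ⟨K, k, i, j, hk, hi, hj, hij, h0, h1⟩ := c1
      refine close _ (tendsto_dg A k) (step_dg (by linarith) hc1 hW k)
        (step_lt (tendsto_dg A k) hi hj hij h0 ?_)
      filter_upwards [e0] with ε hε
      rw [pp_dg_insert A _ hk (hW.1 _).ne' (fun h => hi (by rw [h]; exact mem_insert_self _ _))
        (fun h => hj (by rw [h]; exact mem_insert_self _ _)), h0, zero_add]
      exact mul_ne_zero (by exact_mod_cast hε.ne') h1
    by_cases c2 : ∃ (K : Finset (Fin n)) (k i j : Fin n), k ∉ K ∧ i ∉ insert k K ∧ j ∉ insert k K ∧ i ≠ j ∧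
        pp A K i j = 0 ∧ pp A (insert k K) i j ≠ 0
    · obtain ⟨K, k, i, j, hk, hi, hj, hij, h0, h1⟩ := c2
      have hi' : i ∉ K := fun h => hi (mem_insert_of_mem h)
      have hj' : j ∉ K := fun h => hj (mem_insert_of_mem h)
      refine close _ (tendsto_rk A k) (step_rk (by linarith) hc1 hW k)
        (step_lt (tendsto_rk A k) hi' hj' hij h0 ?_)
      filter_upwards [e0] with ε hε
      rw [pp_rk_notMem A _ hk, h0, mul_zero, zero_add]
      exact mul_ne_zero (by exact_mod_cast hε.ne') h1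
    have hf : Flat A := by
      intro K
      induction K using Finset.induction_on with
      | empty => intro i j _ _ _; rw [pp_empty]
      | insert k K hk ihK =>
        intro i j hi hj hij
        rw [← ihK i j (fun h => hi (mem_insert_of_mem h)) (fun h => hj (mem_insert_of_mem h)) hij]
        constructor
        · intro h
          by_contra h'
          exact c1 ⟨K, k, i, j, hk, hi, hj, hij, h, h'⟩
        · intro h
          by_contra h'
          exact c2 ⟨K, k, i, j, hk, hi, hj, hij, h, h'⟩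
    obtain ⟨K, a, b, ha, hb, hab, h0⟩ := exists_zero (A := A) (by omega)
    have h0' := (hf K a b ha hb hab).mp h0
    refine close _ (tendsto_cn A a b) (step_cn hc le_rfl hW hf hab h0')
      (step_lt (tendsto_cn A a b) (K₀ := ∅) (by simp) (by simp) hab (by rw [pp_empty]; exact h0') ?_)
    filter_upwards [e0] with ε hε
    rw [pp_empty, cn_apply, h0', zero_add, if_pos (Or.inl ⟨rfl, rfl⟩)]
    exact_mod_cast hε.ne'

/-- translation of the ratio condition -/
theorem ratio_iff {c : ℝ} {A : Matrix (Fin n) (Fin n) ℂ} :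
    (∀ (k : ℕ) (α β : Fin k → Fin n), AlmostPrincipal α β → ‖minor A α β‖ ≤ c * ‖minor A β α‖) ↔
      ∀ K i j, i ∉ K → j ∉ K → i ≠ j → ‖pp A K i j‖ ≤ c * ‖pp A K j i‖ := by
  constructor
  · intro h K i j hi hj hij
    obtain ⟨α, β, hαβ, hα, hβ⟩ := exists_almostPrincipal hi hj hij
    have := h _ α β hαβ
    rwa [norm_minor_eq hi hj hαβ.1 hαβ.2.1 hα hβ, norm_minor_eq hj hi hαβ.2.1 hαβ.1 hβ hα] at this
  · intro h k α β hαβ
    obtain ⟨K, i, j, hi, hj, hij, hα, hβ⟩ := hαβ.exists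
    rw [norm_minor_eq hi hj hαβ.1 hαβ.2.1 hα hβ, norm_minor_eq hj hi hαβ.2.1 hαβ.1 hβ hα]
    exact h K i j hi hj hij

theorem main {A : Matrix (Fin n) (Fin n) ℂ} (hP : IsPMatrix A) :
    (IsGKK A ∧ ∀ (k : ℕ) (α β : Fin k → Fin n), AlmostPrincipal α β →
      (minor A α β = 0 ↔ minor A β α = 0)) ↔
    ∃ c : ℝ, A ∈ closure {B : Matrix (Fin n) (Fin n) ℂ | IsStrictGKK B ∧
      ∀ (k : ℕ) (α β : Fin k → Fin n), AlmostPrincipal α β → ‖minor B α β‖ ≤ c * ‖minor B β α‖} := by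
  constructor
  · rintro ⟨hA, hz⟩
    rw [isGKK_iff] at hA
    have hz' : ∀ K i j, i ∉ K → j ∉ K → i ≠ j → pp A K j i = 0 → pp A K i j = 0 := by
      intro K i j hi hj hij h0
      obtain ⟨α, β, hαβ, hα, hβ⟩ := exists_almostPrincipal hi hj hij
      have h1 := (hz _ α β hαβ).mpr (norm_eq_zero.mp (by
        rw [norm_minor_eq hj hi hαβ.2.1 hαβ.1 hβ hα, h0, norm_zero]))
      rw [← norm_eq_zero, norm_minor_eq hi hj hαβ.1 hαβ.2.1 hα hβ, norm_eq_zero] at h1
      exact h1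
    -- a common bound of the ratios
    obtain ⟨c, hc⟩ : ∃ c : ℝ, ∀ x : Finset (Fin n) × Fin n × Fin n,
        ‖pp A x.1 x.2.1 x.2.2‖ / ‖pp A x.1 x.2.2 x.2.1‖ ≤ c := by
      obtain ⟨c, hc⟩ := (Set.finite_range fun x : Finset (Fin n) × Fin n × Fin n =>
        ‖pp A x.1 x.2.1 x.2.2‖ / ‖pp A x.1 x.2.2 x.2.1‖).bddAbove
      exact ⟨c, fun x => hc ⟨x, rfl⟩⟩
    have hW : W (max c 1) A := by
      refine ⟨hA.1, fun K i j hi hj hij => ⟨hA.2 K i j hi hj hij, ?_⟩⟩
      by_cases h0 : pp A K j i = 0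
      · rw [h0, hz' K i j hi hj hij h0]
        simp
      · have h1 : 0 < ‖pp A K j i‖ := norm_pos_iff.mpr h0
        have h2 := (hc (K, i, j)).trans (le_max_left c 1)
        rwa [div_le_iff₀ h1] at h2
    obtain ⟨c', hc'⟩ := mem_closure_U (n := n) (zc A) (max c 1) (le_max_right _ _)
    refine ⟨c', closure_mono ?_ (hc' A hW le_rfl)⟩
    rintro B ⟨h1, h2⟩
    exact ⟨h1, ratio_iff.mpr fun K i j hi hj hij => (h2.2 K i j hi hj hij).2⟩
  · rintro ⟨c, hc⟩
    have hcm : ∀ (k : ℕ) (α β : Fin k → Fin n), Continuous fun B : Matrix (Fin n) (Fin n) ℂ => minor B α β :=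
      fun k α β => (continuous_id.matrix_submatrix _ _).matrix_det
    have h1 : ∀ (k : ℕ) (α β : Fin k → Fin n), AlmostPrincipal α β → 0 ≤ minor A α β * minor A β α := by
      intro k α β hαβ
      have hcl : IsClosed {B : Matrix (Fin n) (Fin n) ℂ | 0 ≤ minor B α β * minor B β α} :=
        isClosed_le continuous_const ((hcm k α β).mul (hcm k β α))
      exact closure_minimal (fun B hB => (hB.1.2 k α β hαβ).le) hcl hc
    have h2 : ∀ (k : ℕ) (α β : Fin k → Fin n), AlmostPrincipal α β →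
        ‖minor A α β‖ ≤ c * ‖minor A β α‖ := by
      intro k α β hαβ
      have hcl : IsClosed {B : Matrix (Fin n) (Fin n) ℂ | ‖minor B α β‖ ≤ c * ‖minor B β α‖} :=
        isClosed_le (hcm k α β).norm ((hcm k β α).norm.const_mul c)
      exact closure_minimal (fun B hB => hB.2 k α β hαβ) hcl hc
    refine ⟨⟨hP, h1⟩, fun k α β hαβ => ?_⟩
    have hβα : AlmostPrincipal β α := ⟨hαβ.2.1, hαβ.1, by rw [inter_comm]; exact hαβ.2.2⟩
    constructor
    · intro h
      have := h2 k β α hβα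
      rw [h, norm_zero, mul_zero] at this
      exact norm_le_zero_iff.mp this
    · intro h
      have := h2 k α β hαβ
      rw [h, norm_zero, mul_zero] at this
      exact norm_le_zero_iff.mp this

end Pool.Agent.Helper85.SVG
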